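import Pool.Agent.H7.KSAT.S1Defs

/-!
# GRD: greedy labels for affine subspaces
-/

set_option autoImplicit false

namespace Pool.KSAT

open Finset Real
open Pool.Agent.H49.Ent Pool.Agent.H32.Dense Pool.STK Pool.KA

open Classical in
theorem grd_sum_fib {Ω X : Type} [Fintype Ω] [Fintype X] (g : Ω → X) (c : Ω → ℝ) (P : X → Prop) :
    (∑ x, if P x then (∑ ω, if g ω = x then c ω else 0) else 0) =
      ∑ ω, if P (g ω) then c ω else 0 := by
  classical
  have h1 : ∀ x : X, (if P x then (∑ ω, if g ω = x then c ω else 0) else 0) =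
      ∑ ω, if g ω = x then (if P x then c ω else 0) else 0 := by
    intro x
    by_cases hx : P x
    · simp [hx]
    · simp [hx]
  simp_rw [h1]
  rw [Finset.sum_comm]
  refine Finset.sum_congr rfl fun ω _ => ?_
  rw [Finset.sum_ite_eq]
  simp

theorem grd_cond_ne {Ω β : Type} [Fintype Ω] (p : Ω → ℝ) (b : Ω → β) {b' : β} {ω : Ω}
    (h : b ω ≠ b') : Pool.Agent.H49.Ent.cond p b b' ω = 0 := by
  unfold Pool.Agent.H49.Ent.cond
  rw [if_neg h]

theorem grd_cond_eq {Ω β : Type} [Fintype Ω] (p : Ω → ℝ) (b : Ω → β) {b' : β} {ω : Ω}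
    (h : b ω = b') : Pool.Agent.H49.Ent.cond p b b' ω = p ω / law p b b' := by
  unfold Pool.Agent.H49.Ent.cond
  rw [if_pos h]

open Classical in
theorem grd_law_eq {Ω β : Type} [Fintype Ω] (p : Ω → ℝ) (b : Ω → β) (b' : β) :
    law p b b' = ∑ ω, if b ω = b' then p ω else 0 := rfl

open Classical in
/-- All levels, for one law. -/
theorem grd_levels (h0 : GRD0Stmt) (X : Type) [Fintype X] (μ : X → ℝ)
    (𝒩 : ℕ → (X → Prop) → Prop) (θ : ℕ → ℝ) (hμ : ∀ x, 0 ≤ μ x) (hθ : ∀ j, 0 < θ j) :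
    ∃ (N : ℕ → ℕ) (c : ℕ → X → ℕ), (∀ j x, c j x ≤ N j) ∧
      (∀ j x, c j x ≠ 0 → ∀ j' < j, c j' x = 0) ∧
      (∀ j, N j * θ j ≤ ∑ x, μ x) ∧
      (∀ j i, 0 < i → i ≤ N j → ∃ A, 𝒩 j A ∧ (∀ x, c j x = i → A x) ∧
        ∀ P : X → Prop, (∀ x, c j x = i → P x) → θ j ≤ ∑ x, if P x then μ x else 0) ∧
      ∀ j A, 𝒩 j A → ∀ P : X → Prop, (∀ x, P x → (∀ j' ≤ j, c j' x = 0) ∧ A x) →
        (∑ x, if P x then μ x else 0) < θ j := by
  classical
  have H := fun (j : ℕ) (S : X → Prop) => h0 X μ (𝒩 j) (θ j) hμ (hθ j) S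
  choose N c hcN hcS hNθ hcA hE using H
  obtain ⟨S, hS0, hSs⟩ : ∃ S : ℕ → X → Prop, (∀ x, S 0 x) ∧
      ∀ j x, S (j + 1) x ↔ (S j x ∧ c j (S j) x = 0) :=
    ⟨fun j => Nat.rec (fun _ => True) (fun j Sj x => Sj x ∧ c j Sj x = 0) j,
      fun _ => trivial, fun _ _ => Iff.rfl⟩
  have hS : ∀ j x, S j x ↔ ∀ j' < j, c j' (S j') x = 0 := by
    intro j x
    induction j with
    | zero => exact ⟨fun _ j' hj' => absurd hj' (Nat.not_lt_zero _), fun _ => hS0 x⟩
    | succ j ih =>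
      rw [hSs, ih]
      constructor
      · rintro ⟨h1, h2⟩ j' hj'
        rcases Nat.lt_succ_iff_lt_or_eq.mp hj' with h | h
        · exact h1 j' h
        · subst h
          exact h2
      · intro h
        exact ⟨fun j' hj' => h j' (Nat.lt_succ_of_lt hj'), h j (Nat.lt_succ_self j)⟩
  refine ⟨fun j => N j (S j), fun j x => c j (S j) x, fun j x => hcN j (S j) x, ?_, ?_, ?_, ?_⟩
  · intro j x hc
    exact (hS j x).mp (hcS j (S j) x hc)
  · intro j
    refine (hNθ j (S j)).trans (Finset.sum_le_sum fun x _ => ?_)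
    split_ifs
    · exact le_rfl
    · exact hμ x
  · intro j i hi hi'
    obtain ⟨A, h1, h2, h3⟩ := hcA j (S j) i hi hi'
    refine ⟨A, h1, h2, fun P hP => h3.trans (Finset.sum_le_sum fun x _ => ?_)⟩
    by_cases h : c j (S j) x = i
    · rw [if_pos h, if_pos (hP x h)]
    · rw [if_neg h]
      split_ifs
      · exact hμ x
      · exact le_rfl
  · intro j A hA P hP
    refine lt_of_le_of_lt (Finset.sum_le_sum fun x _ => ?_) (hE j (S j) A hA)
    by_cases h' : P x
    · have h := hP x h'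
      have h1 : S j x := (hS j x).mpr fun j' hj' => h.1 j' hj'.le
      rw [if_pos h', if_pos ⟨h1, h.1 j le_rfl, h.2⟩]
    · rw [if_neg h']
      split_ifs
      · exact hμ x
      · exact le_rfl

open Classical in
/-- The label, for an abstract random variable `g` in a finite type. -/
theorem grd_label (h0 : GRD0Stmt) {Ω X β : Type} [Fintype Ω] [Fintype X] (p : Ω → ℝ)
    (hp : IsLaw p) (g : Ω → X) (b : Ω → β) (𝒩 : ℕ → (X → Prop) → Prop) (θ : ℕ → ℝ)
    (hθ : ∀ j, 0 < θ j) (k0 : ℕ) :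
    ∃ (z : Ω → Option (ℕ × ℕ)) (A : β → ℕ × ℕ → X → Prop),
      (∀ b' y, A b' y = (fun _ => False) ∨ 𝒩 y.1 (A b' y)) ∧
      (∀ ω ω', b ω = b ω' → g ω = g ω' → z ω = z ω') ∧
      CH p z b ≤ Real.log (1 + ∑ j ∈ Finset.range (k0 + 1), 1 / θ j) ∧
      (∀ ω y, z ω = some y → y.1 ≤ k0 ∧ A (b ω) y (g ω)) ∧
      (∀ ω y, 0 < p ω → z ω = some y → ∀ j' < y.1, ∀ A', 𝒩 j' A' →
        (∑ ω', if A' (g ω') then
          cond p (fun ω => (b ω, z ω)) (b ω, z ω) ω' else 0) ≤ θ j' / θ y.1) ∧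
      (∀ ω, 0 < p ω → ∀ j' ≤ k0, ∀ A', 𝒩 j' A' →
        (∑ ω', if A' (g ω') ∧ z ω' = none then cond p b (b ω) ω' else 0) ≤ θ j') := by
  classical
  have hμ0 : ∀ (b' : β) (x : X), 0 ≤ ∑ ω, if g ω = x then cond p b b' ω else 0 := by
    intro b' x
    refine Finset.sum_nonneg fun ω _ => ?_
    split_ifs
    · exact cond_nonneg hp.nonneg b b' ω
    · exact le_rfl
  have H := fun (b' : β) => grd_levels h0 X
    (fun x => ∑ ω, if g ω = x then cond p b b' ω else 0) 𝒩 θ (hμ0 b') hθ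
  choose N c hcN hc0 hNθ hcA hE using H
  -- the sets
  have HD : ∀ (b' : β) (y : ℕ × ℕ), ∃ A : X → Prop,
      (A = (fun _ => False) ∨ 𝒩 y.1 A) ∧
      (∀ x, c b' y.1 x = y.2 → y.2 ≠ 0 → A x) ∧
      (y.2 ≠ 0 → y.2 ≤ N b' y.1 → ∀ P : X → Prop, (∀ x, c b' y.1 x = y.2 → P x) →
        θ y.1 ≤ ∑ x, if P x then (∑ ω, if g ω = x then cond p b b' ω else 0) else 0) := by
    intro b' y
    by_cases hy : 0 < y.2 ∧ y.2 ≤ N b' y.1
    · obtain ⟨A, hA, h1, h2⟩ := hcA b' y.1 y.2 hy.1 hy.2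
      exact ⟨A, Or.inr hA, fun x hx _ => h1 x hx, fun _ _ => h2⟩
    · refine ⟨fun _ => False, Or.inl rfl, fun x hx h0' => ?_, fun h0' h1 => ?_⟩
      · apply hy
        refine ⟨Nat.pos_of_ne_zero h0', ?_⟩
        rw [← hx]
        exact hcN b' y.1 x
      · exact absurd ⟨Nat.pos_of_ne_zero h0', h1⟩ hy
  choose A hA𝒩 hA1 hA2 using HD
  -- the label
  obtain ⟨z, hzf, hz1, hz2⟩ : ∃ z : Ω → Option (ℕ × ℕ),
      (∀ ω ω', b ω = b ω' → g ω = g ω' → z ω = z ω') ∧
      (∀ ω j i, z ω = some (j, i) → j ≤ k0 ∧ c (b ω) j (g ω) = i ∧ i ≠ 0) ∧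
      (∀ ω j, j ≤ k0 → c (b ω) j (g ω) ≠ 0 → z ω = some (j, c (b ω) j (g ω))) := by
    refine ⟨fun ω => if h : ∃ j, j ≤ k0 ∧ c (b ω) j (g ω) ≠ 0 then
      some (Nat.find h, c (b ω) (Nat.find h) (g ω)) else none, ?_, ?_, ?_⟩
    · intro ω ω' hb hg
      simp only [hb, hg]
    · intro ω j i hz
      beta_reduce at hz
      by_cases h : ∃ j, j ≤ k0 ∧ c (b ω) j (g ω) ≠ 0
      · rw [dif_pos h, Option.some_inj, Prod.mk.injEq] at hz
        obtain ⟨h1, h2⟩ := hz
        have h3 := Nat.find_spec h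
        rw [h1] at h2 h3
        exact ⟨h3.1, h2, by rw [← h2]; exact h3.2⟩
      · rw [dif_neg h] at hz
        exact absurd hz (by simp)
    · intro ω j hj hc
      have h : ∃ j, j ≤ k0 ∧ c (b ω) j (g ω) ≠ 0 := ⟨j, hj, hc⟩
      beta_reduce
      rw [dif_pos h]
      have h1 : Nat.find h ≤ j := Nat.find_min' h ⟨hj, hc⟩
      have h2 : Nat.find h = j := by
        rcases lt_or_eq_of_le h1 with h3 | h3
        · exfalso
          exact (Nat.find_spec h).2 (hc0 (b ω) j (g ω) hc _ h3)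
        · exact h3
      rw [h2]
  have hz3 : ∀ ω, z ω = none → ∀ j ≤ k0, c (b ω) j (g ω) = 0 := by
    intro ω hz j hj
    by_contra h
    rw [hz2 ω j hj h] at hz
    exact absurd hz (by simp)
  -- masses
  have hmass : ∀ ω, 0 < p ω →
      (∑ x, ∑ ω', if g ω' = x then cond p b (b ω) ω' else 0) = 1 := by
    intro ω hω
    have h1 := grd_sum_fib g (cond p b (b ω)) (fun _ => True)
    simp only [if_true] at h1
    rw [h1]
    exact sum_cond p b (law_pos hp.nonneg b hω).ne'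
  refine ⟨z, A, hA𝒩, hzf, ?_, ?_, ?_, ?_⟩
  · -- entropy
    obtain ⟨F, hFd⟩ : ∃ F : β → Finset (Option (ℕ × ℕ)), ∀ b', F b' =
        insert none ((Finset.range (k0 + 1)).biUnion fun j =>
          (Finset.Icc 1 (N b' j)).image fun i => some (j, i)) := ⟨_, fun _ => rfl⟩
    have hF : ∀ ω, 0 < p ω → z ω ∈ F (b ω) := by
      intro ω _
      rw [hFd]
      rcases hzo : z ω with _ | ⟨j, i⟩
      · exact Finset.mem_insert_self _ _
      · refine Finset.mem_insert_of_mem ?_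
        rw [Finset.mem_biUnion]
        obtain ⟨h1, h2, h3⟩ := hz1 ω j i hzo
        refine ⟨j, Finset.mem_range.mpr (Nat.lt_succ_of_le h1), ?_⟩
        rw [Finset.mem_image]
        refine ⟨i, Finset.mem_Icc.mpr ⟨Nat.one_le_iff_ne_zero.mpr h3, ?_⟩, rfl⟩
        rw [← h2]
        exact hcN (b ω) j (g ω)
    have hcard : ∀ ω, 0 < p ω → Real.log ((F (b ω)).card) ≤
        Real.log (1 + ∑ j ∈ Finset.range (k0 + 1), 1 / θ j) := by
      intro ω hω
      have h4 := Finset.card_pos.mpr ⟨_, hF ω hω⟩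
      have h1 : (F (b ω)).card ≤
          1 + ∑ j ∈ Finset.range (k0 + 1), N (b ω) j := by
        rw [hFd]
        refine (Finset.card_insert_le _ _).trans ?_
        rw [add_comm]
        refine Nat.add_le_add_left ?_ 1
        refine Finset.card_biUnion_le.trans (Finset.sum_le_sum fun j _ => ?_)
        refine Finset.card_image_le.trans ?_
        rw [Nat.card_Icc]
        omega
      have h3 : ∀ j, (N (b ω) j : ℝ) ≤ 1 / θ j := by
        intro j
        rw [le_div_iff₀ (hθ j), ← hmass ω hω]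
        exact hNθ (b ω) j
      refine Real.log_le_log (by exact_mod_cast h4) ?_
      have h2 : ((F (b ω)).card : ℝ) ≤
          1 + ∑ j ∈ Finset.range (k0 + 1), (N (b ω) j : ℝ) := by
        exact_mod_cast h1
      have h5 := Finset.sum_le_sum (s := Finset.range (k0 + 1)) fun j _ => h3 j
      linarith
    refine (CH_le_card hp.nonneg hp.sum_one z b F hF).trans ?_
    unfold Ex
    refine (Finset.sum_le_sum fun ω _ => ?_ : _ ≤
        ∑ ω, p ω * Real.log (1 + ∑ j ∈ Finset.range (k0 + 1), 1 / θ j)).trans ?_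
    · rcases (hp.nonneg ω).lt_or_eq with h | h
      · exact mul_le_mul_of_nonneg_left (hcard ω h) h.le
      · rw [← h]
        simp
    · rw [← Finset.sum_mul, hp.sum_one, one_mul]
  · rintro ω ⟨j, i⟩ hz
    obtain ⟨h1, h2, h3⟩ := hz1 ω j i hz
    exact ⟨h1, hA1 (b ω) (j, i) (g ω) h2 h3⟩
  · rintro ω ⟨j, i⟩ hω hz j' hj' A' hA'
    obtain ⟨h1, h2, h3⟩ := hz1 ω j i hz
    have hj'' : j' < j := hj'
    have hA2' := hA2 (b ω) (j, i) h3 (by rw [← h2]; exact hcN (b ω) j (g ω))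
      (fun x => c (b ω) j x = i) (fun x hx => hx)
    rw [grd_sum_fib g (cond p b (b ω)) (fun x => c (b ω) j x = i)] at hA2'
    have hlb := law_pos hp.nonneg b hω
    -- the law of the label
    have hlz : law p b (b ω) * θ j ≤ law p (fun ω => (b ω, z ω)) (b ω, z ω) := by
      refine (mul_le_mul_of_nonneg_left hA2' hlb.le).trans ?_
      rw [Finset.mul_sum, grd_law_eq p (fun ω => (b ω, z ω))]
      refine Finset.sum_le_sum fun ω' _ => ?_
      by_cases hcω : c (b ω) j (g ω') = i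
      · rw [if_pos hcω]
        by_cases hbb : b ω' = b ω
        · have hzz : z ω' = z ω := by
            rw [hz, hz2 ω' j h1 (by rw [hbb, hcω]; exact h3), hbb, hcω]
          rw [if_pos (by rw [hbb, hzz]), grd_cond_eq p b hbb, mul_div_cancel₀ _ hlb.ne']
        · rw [grd_cond_ne p b hbb, mul_zero]
          split_ifs
          · exact hp.nonneg _
          · exact le_rfl
      · rw [if_neg hcω, mul_zero]
        split_ifs
        · exact hp.nonneg _
        · exact le_rfl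
    have hEE := hE (b ω) j' A' hA' (fun x => (∀ i ≤ j', c (b ω) i x = 0) ∧ A' x)
      (fun x hx => hx)
    rw [grd_sum_fib g (cond p b (b ω))
      (fun x => (∀ i ≤ j', c (b ω) i x = 0) ∧ A' x)] at hEE
    have hlz0 : 0 < law p (fun ω => (b ω, z ω)) (b ω, z ω) :=
      lt_of_lt_of_le (mul_pos hlb (hθ j)) hlz
    have hnum : (∑ ω', if A' (g ω') then
        cond p (fun ω => (b ω, z ω)) (b ω, z ω) ω' else 0) *
        law p (fun ω => (b ω, z ω)) (b ω, z ω) ≤ law p b (b ω) * θ j' := by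
      refine le_trans ?_ (mul_le_mul_of_nonneg_left hEE.le hlb.le)
      rw [Finset.mul_sum, Finset.sum_mul]
      refine Finset.sum_le_sum fun ω' _ => ?_
      by_cases hbz : (b ω', z ω') = (b ω, z ω)
      · by_cases hN : A' (g ω')
        · have hb1 : b ω' = b ω := congrArg Prod.fst hbz
          have hz1' : z ω' = z ω := congrArg Prod.snd hbz
          have hz4 : z ω' = some (j, i) := hz1'.trans hz
          obtain ⟨_, h5, h6⟩ := hz1 ω' j i hz4
          have h7 := hc0 (b ω') j (g ω') (by rw [h5]; exact h6)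
          rw [hb1] at h7
          rw [if_pos hN, if_pos ⟨fun i' hi' => h7 i' (lt_of_le_of_lt hi' hj''), hN⟩,
            grd_cond_eq p b hb1, grd_cond_eq p (fun ω => (b ω, z ω)) hbz,
            div_mul_cancel₀ _ hlz0.ne', mul_div_cancel₀ _ hlb.ne']
        · rw [if_neg hN, zero_mul]
          refine mul_nonneg hlb.le ?_
          split_ifs
          · exact cond_nonneg hp.nonneg _ _ _
          · exact le_rfl
      · rw [grd_cond_ne p (fun ω => (b ω, z ω)) hbz, ite_self, zero_mul]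
        refine mul_nonneg hlb.le ?_
        split_ifs
        · exact cond_nonneg hp.nonneg _ _ _
        · exact le_rfl
    change _ ≤ θ j' / θ j
    rw [le_div_iff₀ (hθ j)]
    have hsum0 : 0 ≤ ∑ ω', if A' (g ω') then
        cond p (fun ω => (b ω, z ω)) (b ω, z ω) ω' else 0 := by
      refine Finset.sum_nonneg fun ω' _ => ?_
      split_ifs
      · exact cond_nonneg hp.nonneg _ _ _
      · exact le_rfl
    have h12 := (mul_le_mul_of_nonneg_left hlz hsum0).trans hnum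
    rw [mul_left_comm] at h12
    exact le_of_mul_le_mul_left h12 hlb
  · intro ω hω j' hj' A' hA'
    have hEE := hE (b ω) j' A' hA' (fun x => (∀ i ≤ j', c (b ω) i x = 0) ∧ A' x)
      (fun x hx => hx)
    rw [grd_sum_fib g (cond p b (b ω))
      (fun x => (∀ i ≤ j', c (b ω) i x = 0) ∧ A' x)] at hEE
    refine le_trans (Finset.sum_le_sum fun ω' _ => ?_) hEE.le
    by_cases hN : A' (g ω') ∧ z ω' = none
    · rw [if_pos hN]
      by_cases hbb : b ω' = b ω
      · have h7 := hz3 ω' hN.2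
        rw [hbb] at h7
        rw [if_pos ⟨fun i' hi' => h7 i' (hi'.trans hj'), hN.1⟩]
      · rw [grd_cond_ne p b hbb, ite_self]
    · rw [if_neg hN]
      split_ifs
      · exact cond_nonneg hp.nonneg _ _ _
      · exact le_rfl

theorem grd_thm : GRD0Stmt → GRDStmt := by
  classical
  intro h0 m k0 Ω β _ p D b r θ hp hθ
  obtain ⟨z, A, hA, hz, hCH, h1, h2, h3⟩ := grd_label h0 (X := ↥(Finset.univ.image D)) p hp
    (fun ω => ⟨D ω, Finset.mem_image_of_mem D (Finset.mem_univ ω)⟩) b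
    (fun j A => ∃ (v : Fin m → ℝ) (B : Fin j → Fin m → ℝ), A = fun x => Near j r v B x.1)
    θ hθ k0
  have HD : ∀ (b' : β) (y : ℕ × ℕ), ∃ (v : Fin m → ℝ) (B : Fin y.1 → Fin m → ℝ),
      ∀ x, A b' y x → Near y.1 r v B x.1 := by
    intro b' y
    rcases hA b' y with h | ⟨v, B, h⟩
    · exact ⟨0, 0, fun x hx => by rw [h] at hx; exact hx.elim⟩
    · exact ⟨v, B, fun x hx => by rw [h] at hx; exact hx⟩
  choose v B hvB using HD
  refine ⟨z, v, B, ?_, hCH, ?_, ?_, ?_⟩
  · intro ω ω' hb hD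
    exact hz ω ω' hb (Subtype.ext hD)
  · intro ω y hy
    exact ⟨(h1 ω y hy).1, hvB (b ω) y _ (h1 ω y hy).2⟩
  · intro ω y hω hy j' hj' v' B'
    exact h2 ω y hω hy j' hj' _ ⟨v', B', rfl⟩
  · intro ω hω j' hj' v' B'
    exact h3 ω hω j' hj' _ ⟨v', B', rfl⟩

end Pool.KSAT
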